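import Pool.Agent.H96R.CP.Main

/-!
# The size of the set of the oracles with a complete disjoint NP pair

For every oracle `B`, the set of the oracles `A` such that there is a complete disjoint `NP` pair
relative to the join of `A` and `B` is a null set for each gauge that is bounded infinitely often,
but not for the gauge `ε log log log N`; the oracle `A` with a complete pair can be found close to
any given oracle.
-/

set_option autoImplicit false

namespace Pool.Agent.Results.MP_b9add9_lc.GaugeAndDistance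

open MeasureTheory Pool.Agent.H628R3.RO Pool.Agent.H96R.CP
open Pool.Agent.H620R2.Gauge (Null)

theorem result : ∀ B : Oracle,
    (∀ f : ℕ → ℝ, (∃ C : ℝ, ∃ᶠ N : ℕ in Filter.atTop, f N ≤ C) →
      Null f (WeakComplete B) ∧ Null f (HasComplete B)) ∧
    (∀ (f : ℕ → ℝ) (ε c : ℝ), 0 < ε →
      (∀ N : ℕ, ε * (Nat.log 2 (Nat.log 2 (Nat.log 2 N)) : ℝ) ≤ f N + c) →
        ¬ Null f (Nontrivial B)) ∧
    ∀ k : ℕ, 1 ≤ k → (∀ A₀ : Oracle, ∃ A ∈ HasComplete B, Near k A₀ A) ∧
      ∀ᵐ A₀ ∂randomOracle, ∃ A ∈ Nontrivial B, Near k A₀ A := by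
  intro B
  refine ⟨fun f ⟨C, hf⟩ => ?_, fun f ε c hε hf => not_null B f ε c hε hf, fun k hk =>
    distance B k hk⟩
  have h := null_weakComplete B f C hf
  exact ⟨h, null_mono (hasComplete_sub B) h⟩

end Pool.Agent.Results.MP_b9add9_lc.GaugeAndDistance
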