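import Pool.Agent.HM13.PC.World

/-!
# Complete disjoint NP pairs in a world where PSPACE is nearly P

Let `α` be any monotone unbounded function. There is an oracle `A` such that relative to `A` every
language in `PSPACE` is decided in time `n ^ O(α n)`, and nevertheless there is no complete
disjoint `NP` pair: for every disjoint `NP` pair `(C, D)`, and also for every pair of disjoint
`coNP` languages, there are a separator `S` of `C` from `D` and a language `X` in `UP ∩ coUP` which
is not decided in polynomial time relative to `A` and `S`. Likewise for every language `C` in `UP`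
there is an `X` in `UP ∩ coUP` which is not Turing reducible to `C`. Hence none of the classes of
disjoint `NP` pairs, disjoint `coNP` pairs, `UP` and `NP ∩ coNP` has a complete element, not even
for Turing reductions (that compute with an arbitrary separator).
-/

set_option autoImplicit false

namespace Pool.Agent.Results.MP_b9add9_lc.NearlyCollapsedWorld

open Filter Pool.Agent.NPC Pool.Agent.H620R2.Gauge Pool.Agent.TH678.GC Pool.Agent.TH678.RS
  Pool.Agent.HM13.PC

/-- a verifier as an algorithm -/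
theorem np_alg {A : Oracle} {L : Set (List Bool)} (h : IsNP A L) :
    ∃ (M : Alg) (p : Polynomial ℕ), ∀ y, y ∈ L ↔ Acc A M p y := by
  obtain ⟨V, p, ⟨M, hM⟩, h⟩ := h
  refine ⟨M, p, fun y => ?_⟩
  rw [h y]
  unfold HM13.PC.Acc Ans
  simp only [hM, Option.some.injEq]

theorem not_isP {A S : Oracle} {X : Set (List Bool)}
    (h : ∀ M : Alg, ∃ x, ¬ (x ∈ X ↔ M.out (join A S) x = some [true])) : ¬ IsP (join A S) X := by
  rintro ⟨V, ⟨M, hM⟩, hV⟩
  obtain ⟨x, hx⟩ := h M
  apply hx
  rw [hV x, hM x, Option.some.injEq]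

/-- Let `α` be monotone and unbounded. Then there is an oracle `A` with the following properties.

1. Every language in `PSPACE` relative to `A` is decided in time `n ^ O(α n)` relative to `A`.
2. If `C` and `D` are disjoint and both are in `NP` relative to `A`, or both are in `coNP` relative
to `A`, then there are a language `X` in `UP ∩ coUP` relative to `A` and a separator `S` of `C` from
`D` such that `X` is not in `P` relative to the join of `A` and `S`.
3. For every `C` in `UP` relative to `A` there is a language `X` in `UP ∩ coUP` relative to `A` which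
is not in `P` relative to the join of `A` and `C`.
4. There is no complete disjoint `NP` pair relative to `A`, for many-one reductions of pairs. -/
theorem result : ∀ α : ℕ → ℕ, Monotone α → Tendsto α atTop atTop → ∃ A : Oracle,
    (∀ L, IsPSPACE A L → InTime α A L) ∧
    (∀ C D : Set (List Bool), Disjoint C D → (IsNP A C ∧ IsNP A D ∨ IsNP A Cᶜ ∧ IsNP A Dᶜ) →
      ∃ (X : Set (List Bool)) (S : Oracle), IsUP A X ∧ IsUP A Xᶜ ∧
        (∀ y ∈ C, S y = true) ∧ (∀ y ∈ D, S y = false) ∧ ¬ IsP (join A S) X) ∧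
    (∀ C : Oracle, IsUP A {y | C y = true} →
      ∃ X, IsUP A X ∧ IsUP A Xᶜ ∧ ¬ IsP (join A C) X) ∧
    ¬ ∃ C D : Set (List Bool), IsNP A C ∧ IsNP A D ∧ Disjoint C D ∧
      ∀ C' D' : Set (List Bool), IsNP A C' → IsNP A D' → Disjoint C' D' →
        ∃ f, IsFP A f ∧ (∀ x ∈ C', f x ∈ C) ∧ ∀ x ∈ D', f x ∈ D := by
  intro α hα hα'
  obtain ⟨A, h1, h2⟩ := exists_world hα hα'
  have key : ∀ C D : Set (List Bool), Disjoint C D →
      (IsNP A C ∧ IsNP A D ∨ IsNP A Cᶜ ∧ IsNP A Dᶜ) →
      ∃ (X : Set (List Bool)) (S : Oracle), IsUP A X ∧ IsUP A Xᶜ ∧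
        (∀ y ∈ C, S y = true) ∧ (∀ y ∈ D, S y = false) ∧ ¬ IsP (join A S) X := by
    intro C D hCD h
    rcases h with ⟨hC, hD⟩ | ⟨hC, hD⟩
    · obtain ⟨M₁, p₁, hM₁⟩ := np_alg hC
      obtain ⟨M₂, p₂, hM₂⟩ := np_alg hD
      obtain ⟨X, u1, u2, S, hS, hX⟩ := h2 (Cls.np M₁ M₂ p₁ p₂) (by
        intro y hy
        rw [← hM₁, ← hM₂] at hy
        exact Set.disjoint_left.1 hCD hy.1 hy.2)
      refine ⟨X, S, u1, u2, fun y hy => ?_, fun y hy => ?_, not_isP hX⟩
      · by_contra hc
        exact (hS y).2 (by simpa using hc) ((hM₁ y).1 hy)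
      · by_contra hc
        exact (hS y).1 (by simpa using hc) ((hM₂ y).1 hy)
    · obtain ⟨M₁, p₁, hM₁⟩ := np_alg hC
      obtain ⟨M₂, p₂, hM₂⟩ := np_alg hD
      obtain ⟨X, u1, u2, S, hS, hX⟩ := h2 (Cls.co M₁ M₂ p₁ p₂) (by
        intro y
        show Acc A M₁ p₁ y ∨ Acc A M₂ p₂ y
        rw [← hM₁, ← hM₂]
        by_cases hy : y ∈ C
        · exact Or.inr (Set.disjoint_left.1 hCD hy)
        · exact Or.inl hy)
      refine ⟨X, S, u1, u2, fun y hy => ?_, fun y hy => ?_, not_isP hX⟩
      · by_contra hc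
        exact ((hM₁ y).2 ((hS y).2 (by simpa using hc))) hy
      · by_contra hc
        exact ((hM₂ y).2 ((hS y).1 (by simpa using hc))) hy
  refine ⟨A, h1, key, fun C hC => ?_, ?_⟩
  · obtain ⟨V, p, ⟨M, hM⟩, hV, hu⟩ := hC
    obtain ⟨X, u1, u2, S, hS, hX⟩ := h2 (Cls.up M p) (by
      intro y w w' h3 h4
      rw [hM, Option.some.injEq] at h3 h4
      exact hu y w w' h3 h4)
    have hSC : S = C := by
      funext y
      have h3 : S y = true ↔ Acc A M p y := hS y
      have h4 : C y = true ↔ Acc A M p y := by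
        have h5 := hV y
        unfold HM13.PC.Acc Ans
        simp only [hM, Option.some.injEq]
        exact h5
      rw [Bool.eq_iff_iff, h3, h4]
    subst hSC
    exact ⟨X, u1, u2, not_isP hX⟩
  · rintro ⟨C, D, hC, hD, hCD, hred⟩
    obtain ⟨X, S, u1, u2, h3, h4, h5⟩ := key C D hCD (Or.inl ⟨hC, hD⟩)
    have hnp : ∀ {L : Set (List Bool)}, IsUP A L → IsNP A L := by
      rintro L ⟨V, p, h6, h7, -⟩
      exact ⟨V, p, h6, h7⟩
    obtain ⟨f, hf, hf1, hf2⟩ := hred X Xᶜ (hnp u1) (hnp u2) disjoint_compl_right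
    exact h5 (isP_of_map hf hf1 hf2 h3 h4)

end Pool.Agent.Results.MP_b9add9_lc.NearlyCollapsedWorld
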