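import Pool.Agent.H96R.DP2.Main

/-!
# No disjoint NP pair is hard for the disjoint UP pairs, relative to a random oracle

For every oracle `B` and almost every oracle `A`: relative to the join of `A` and `B`, no disjoint
`NP` pair is hard for the disjoint pairs of languages in `UP`, even for nonuniform many-one
reductions of size `2 ^ o(n)`. In particular there is no complete disjoint `NP` pair.
-/

set_option autoImplicit false

namespace Pool.Agent.Results.MP_b9add9_lc.NonuniformReductions

open MeasureTheory Pool.Agent.H628R3.RO Pool.Agent.H96R.DP Pool.Agent.H96R.DP2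

theorem result : ∀ B : Oracle, ∀ᵐ A ∂randomOracle, ∀ K₀ K₁ : Set (List Bool),
    IsPair (IsNP (jn A B)) K₀ K₁ → ∃ L₀ L₁ : Set (List Bool),
      IsPair (IsUP (jn A B)) L₀ L₁ ∧ ¬ SubexpRed (jn A B) L₀ L₁ K₀ K₁ ∧
        ¬ RedPair (jn A B) L₀ L₁ K₀ K₁ := by
  intro B
  filter_upwards [Pool.Agent.H96R.DP2.main B] with A hA K₀ K₁ hK
  obtain ⟨L₀, L₁, h1, h2⟩ := hA K₀ K₁ hK
  exact ⟨L₀, L₁, h1, h2, fun h3 => h2 (subexpRed_of_redPair h3)⟩

end Pool.Agent.Results.MP_b9add9_lc.NonuniformReductions
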