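import Pool.Agent.Helper11x.SP.Main

/-!
# Complete disjoint `NP` pairs and sparse oracles: two exact thresholds

Add a sparse set `S` to an arbitrary oracle `B`. How many strings must `S` have in order to destroy
all complete disjoint `NP` pairs? Any unbounded number is enough, even for quantum Turing
reductions (with a suitable separator as an oracle), for disjoint pairs of languages in `UP`, and
for arbitrarily small fractions of the inputs; a bounded number is not enough. For nonuniform
reductions, and quantum circuits with polynomial advice which are correct on more than one half of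
the inputs, any superpolynomial number is enough, and a polynomial number is not. In particular
there are oracles relative to which `PSPACE ⊆ P/poly` and there is no complete disjoint `NP` pair.
-/

set_option autoImplicit false

namespace Pool.Agent.Results.MP_b9add9_lc.SparseOracles

open Pool.Agent.NPC Pool.Agent.H620R2.Gauge Pool.Agent.TH678.GC Pool.Agent.HM13.PC
  Pool.Agent.Helper11x.SP

/-- Let `g` be monotone, and call `S` sparse if it has at most `g n` strings of length at most `n`.

1. If `g` is unbounded then for every oracle `B` there is a sparse `S` such that relative to the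
join of `B` and `S` there is no complete disjoint `NP` pair. Moreover, for every disjoint `NP` pair
`(P, Q)` there are a separator `T` and disjoint `U`, `V` in `UP` such that no uniform quantum
circuits with the additional oracle `T` separate `U` from `V`, not even on an arbitrarily small
positive fraction of `U ∪ V`.
2. If `g` is not bounded by a polynomial then for every `B` there is a sparse `S` with the same
properties for reductions with polynomial advice, and for quantum circuits with polynomial advice
and any fraction larger than `1 / 2`.
3. There is an oracle `B` such that for all `g` and all sparse `S`, relative to the join of `B` and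
`S`: if `g` is bounded then `PSPACE = P`, and there is a complete disjoint `NP` pair; if `g` is
bounded by a polynomial then `PSPACE ⊆ P/poly`, and there is a disjoint `NP` pair which is complete
for reductions with polynomial advice. -/
theorem result : (∀ g : ℕ → ℕ, Monotone g →
      ((∀ c, ∃ n, c < g n) → ∀ B : Oracle, ∃ S : Oracle, Sparse g S ∧
        (¬ ∃ P Q, Complete (join B S) P Q) ∧
        NoneHard (fun A U V => ∃ γ : ℝ, 0 < γ ∧ SepBQP γ A U V) (join B S)) ∧
      ((∀ p : Polynomial ℕ, ∃ n, p.eval n < g n) → ∀ B : Oracle, ∃ S : Oracle, Sparse g S ∧
        (¬ ∃ P Q, CompletePoly (join B S) P Q) ∧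
        NoneHard (fun A U V => ∃ γ : ℝ, 1 / 2 < γ ∧ SepBQPpoly γ A U V) (join B S))) ∧
    ∃ B : Oracle, ∀ (g : ℕ → ℕ) (S : Oracle), Sparse g S →
      ((∃ c, ∀ n, g n ≤ c) → (∀ L, IsPSPACE (join B S) L → IsP (join B S) L) ∧
        ∃ P Q, Complete (join B S) P Q) ∧
      ((∃ p : Polynomial ℕ, ∀ n, g n ≤ p.eval n) →
        (∀ L, IsPSPACE (join B S) L → WithAdvice (IsP (join B S)) L) ∧
        ∃ P Q, CompletePoly (join B S) P Q) := by
  refine ⟨fun g hg => ⟨fun hu B => main_uniform hg hu B, fun hu B => main_poly hg hu B⟩, ?_⟩
  obtain ⟨B, hB⟩ := exists_few
  refine ⟨B, fun g S hS => ⟨fun h => ?_, fun h => ?_⟩⟩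
  · have h1 := (hB g S hS).1 h
    exact ⟨h1, _, _, complete_of h1⟩
  · have h1 := (hB g S hS).2 h
    exact ⟨h1, _, _, completePoly_of h1⟩

end Pool.Agent.Results.MP_b9add9_lc.SparseOracles
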